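import Mathlib
import Pool.Agent.H94Flex.Assembly

namespace Pool.Agent.Results.MP_261b1b_mp.FlexibleCatalysis

open Matrix Polynomial
open scoped Kronecker
open Pool.Agent.H94Flex

/-! ## Definitions used by the statement -/

/-- A pure bipartite state in `ℂ^d ⊗ ℂ^d`, given by the matrix of its coefficients
in the product basis. -/
structure PureState where
  /-- local dimension -/
  d : ℕ
  /-- coefficient matrix -/
  coeff : Matrix (Fin d) (Fin d) ℂ
  /-- normalisation -/
  norm_sq : ∑ i, ∑ j, ‖coeff i j‖ ^ 2 = 1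

/-- Schmidt vector (squared Schmidt coefficients): the eigenvalues of the reduced state. -/
noncomputable def PureState.schmidt (ψ : PureState) : Fin ψ.d → ℝ :=
  (Matrix.isHermitian_mul_conjTranspose_self ψ.coeff).eigenvalues

/-- The sum of the `k` largest entries of `x`, padded with zeros
(for a vector with nonnegative entries). -/
noncomputable def topSum {m : ℕ} (x : Fin m → ℝ) (k : ℕ) : ℝ :=
  (Finset.univ.filter (fun s : Finset (Fin m) => s.card ≤ k)).sup' ⟨∅, by simp⟩
    (fun s => ∑ i ∈ s, x i)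

/-- `x` is majorized by `y`, both padded with zeros to a common length. -/
def Majorized {m n : ℕ} (x : Fin m → ℝ) (y : Fin n → ℝ) : Prop :=
  (∀ k, topSum x k ≤ topSum y k) ∧ ∑ i, x i = ∑ j, y j

theorem tensor_norm {d e : ℕ} (A : Matrix (Fin d) (Fin d) ℂ) (B : Matrix (Fin e) (Fin e) ℂ)
    (hA : ∑ i, ∑ j, ‖A i j‖ ^ 2 = 1) (hB : ∑ i, ∑ j, ‖B i j‖ ^ 2 = 1) :
    ∑ i, ∑ j, ‖(Matrix.reindex finProdFinEquiv finProdFinEquiv (A ⊗ₖ B)) i j‖ ^ 2 = 1 := by
  rw [← finProdFinEquiv.sum_comp]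
  simp only [← finProdFinEquiv.sum_comp (fun j => ‖(Matrix.reindex finProdFinEquiv
    finProdFinEquiv (A ⊗ₖ B)) _ j‖ ^ 2)]
  simp only [reindex_apply, submatrix_apply, Equiv.symm_apply_apply, kroneckerMap_apply,
    Fintype.sum_prod_type, norm_mul, mul_pow]
  have e : ∀ a b, ∑ x, ∑ y, ‖A a x‖ ^ 2 * ‖B b y‖ ^ 2
      = (∑ x, ‖A a x‖ ^ 2) * ∑ y, ‖B b y‖ ^ 2 := by
    intro a b
    rw [Finset.sum_mul_sum]
  simp only [e]
  rw [← Finset.sum_mul_sum, hA, hB, one_mul]

/-- The state `ψ ⊗ η` of `(ℂ^d ⊗ ℂ^e) ⊗ (ℂ^d ⊗ ℂ^e)`. -/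
noncomputable def PureState.tensor (ψ η : PureState) : PureState where
  d := ψ.d * η.d
  coeff := Matrix.reindex finProdFinEquiv finProdFinEquiv (ψ.coeff ⊗ₖ η.coeff)
  norm_sq := tensor_norm ψ.coeff η.coeff ψ.norm_sq η.norm_sq

/-- `ψ → φ` is possible in LOCC: the Schmidt vector of `ψ` is majorized by that of `φ`
(the criterion of the problem's setting, Nielsen's theorem). -/
def Converts (ψ φ : PureState) : Prop := Majorized ψ.schmidt φ.schmidt

/-- `Cat_LOCC`: the pairs `(ψ, φ)` for which some state `η` makes `ψ ⊗ η → φ ⊗ η` possible. -/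
def Cat : Set (PureState × PureState) :=
  {P | ∃ η : PureState, Converts (P.1.tensor η) (P.2.tensor η)}

/-- `Cat_LOCC^(f)(S)`: the pairs `(ψ, φ)` such that for every `η ∈ S` there is `η' ∈ S` with
`ψ ⊗ η → φ ⊗ η'` possible. -/
def CatFlex (S : Set PureState) : Set (PureState × PureState) :=
  {P | ∀ η ∈ S, ∃ η' ∈ S, Converts (P.1.tensor η) (P.2.tensor η')}

/-- `Cat_LOCC^(f)`: the union of `Cat_LOCC^(f)(S)` over all nonempty sets `S` of states,
finite or infinite. -/
def CatF : Set (PureState × PureState) :=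
  ⋃ (S : Set PureState) (_ : S.Nonempty), CatFlex S

/-! ## Proofs -/

theorem le_topSum {m : ℕ} (x : Fin m → ℝ) {k : ℕ} {s : Finset (Fin m)} (hs : s.card ≤ k) :
    ∑ i ∈ s, x i ≤ topSum x k :=
  Finset.le_sup' (fun s : Finset (Fin m) => ∑ i ∈ s, x i) (by simp [hs])

theorem exists_topSum {m : ℕ} (x : Fin m → ℝ) (k : ℕ) :
    ∃ s : Finset (Fin m), s.card ≤ k ∧ topSum x k = ∑ i ∈ s, x i := by
  obtain ⟨s, hs, h⟩ := Finset.exists_mem_eq_sup'
    (s := Finset.univ.filter (fun s : Finset (Fin m) => s.card ≤ k)) ⟨∅, by simp⟩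
    (fun s => ∑ i ∈ s, x i)
  exact ⟨s, by simpa using hs, h⟩

theorem sum_le_Phi {m : ℕ} (x : Fin m → ℝ) {k : ℕ} {s : Finset (Fin m)} (hs : s.card ≤ k)
    {t : ℝ} (ht : 0 ≤ t) : ∑ i ∈ s, x i ≤ k * t + Phi (ms x) t := by
  rw [Phi_ms]
  have h1 : ∑ i ∈ s, x i = ∑ i ∈ s, (x i - t) + s.card * t := by
    rw [Finset.sum_sub_distrib]; simp
  have h2 : ∑ i ∈ s, (x i - t) ≤ ∑ i ∈ s, max (x i - t) 0 :=
    Finset.sum_le_sum (fun i _ => le_max_left _ _)
  have h3 : ∑ i ∈ s, max (x i - t) 0 ≤ ∑ i, max (x i - t) 0 :=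
    Finset.sum_le_sum_of_subset_of_nonneg (Finset.subset_univ _) (fun i _ _ => le_max_right _ _)
  have h4 : (s.card : ℝ) * t ≤ k * t := mul_le_mul_of_nonneg_right (by exact_mod_cast hs) ht
  linarith

theorem topSum_le_Phi {m : ℕ} (x : Fin m → ℝ) (k : ℕ) {t : ℝ} (ht : 0 ≤ t) :
    topSum x k ≤ k * t + Phi (ms x) t := by
  obtain ⟨s, hs, h⟩ := exists_topSum x k
  rw [h]
  exact sum_le_Phi x hs ht

theorem exists_Phi_le {m : ℕ} (x : Fin m → ℝ) (t : ℝ) :
    ∃ k : ℕ, k * t + Phi (ms x) t ≤ topSum x k := by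
  classical
  set s : Finset (Fin m) := Finset.univ.filter (fun i => t < x i) with hs
  refine ⟨s.card, ?_⟩
  have h1 : Phi (ms x) t = ∑ i ∈ s, (x i - t) := by
    rw [Phi_ms, hs, Finset.sum_filter]
    apply Finset.sum_congr rfl
    intro i _
    split_ifs with h
    · exact max_eq_left (by linarith)
    · exact max_eq_right (by linarith)
  rw [h1, Finset.sum_sub_distrib]
  simp only [Finset.sum_const, nsmul_eq_mul]
  have := le_topSum x (le_refl s.card)
  linarith

theorem exists_t {m : ℕ} (x : Fin m → ℝ) (hx : ∀ i, 0 ≤ x i) (k : ℕ) :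
    ∃ t : ℝ, 0 ≤ t ∧ k * t + Phi (ms x) t ≤ topSum x k := by
  classical
  obtain ⟨s, hs, h⟩ := exists_topSum x k
  have hmax : ∀ u : Finset (Fin m), u.card ≤ k → ∑ i ∈ u, x i ≤ ∑ i ∈ s, x i := by
    intro u hu
    rw [← h]
    exact le_topSum x hu
  rcases Nat.eq_zero_or_pos k with rfl | hk
  · -- `k = 0`
    refine ⟨∑ i, x i, Finset.sum_nonneg (fun i _ => hx i), ?_⟩
    rw [Phi_eq_zero _ _ (by
      intro a ha
      obtain ⟨i, rfl⟩ := mem_ms.mp ha
      exact Finset.single_le_sum (f := x) (fun i _ => hx i) (Finset.mem_univ i))]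
    simp only [CharP.cast_eq_zero, zero_mul, add_zero]
    have := le_topSum x (k := 0) (s := ∅) (by simp)
    simpa using this
  rcases lt_or_eq_of_le hs with hlt | heq
  · -- fewer than `k` entries
    refine ⟨0, le_rfl, ?_⟩
    rw [mul_zero, zero_add, Phi_ms, h]
    have : ∀ i, max (x i - 0) 0 = x i := by
      intro i
      rw [sub_zero]
      exact max_eq_left (hx i)
    simp only [this]
    rw [← Finset.sum_add_sum_compl s]
    have h2 : ∑ i ∈ sᶜ, x i = 0 := by
      apply Finset.sum_eq_zero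
      intro i hi
      rw [Finset.mem_compl] at hi
      have h3 := hmax (insert i s) (by rw [Finset.card_insert_of_notMem hi]; omega)
      rw [Finset.sum_insert hi] at h3
      exact le_antisymm (by linarith) (hx i)
    rw [h2, add_zero]
  · -- exactly `k` entries
    have hne : s.Nonempty := Finset.card_pos.mp (by omega)
    obtain ⟨i0, hi0, hmin⟩ := Finset.exists_min_image s x hne
    refine ⟨x i0, hx i0, ?_⟩
    rw [h, Phi_ms, ← Finset.sum_add_sum_compl s]
    have h1 : ∑ i ∈ s, max (x i - x i0) 0 = ∑ i ∈ s, x i - k * x i0 := by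
      rw [← heq, ← nsmul_eq_mul, ← Finset.sum_const, ← Finset.sum_sub_distrib]
      apply Finset.sum_congr rfl
      intro i hi
      exact max_eq_left (by linarith [hmin i hi])
    have h2 : ∑ i ∈ sᶜ, max (x i - x i0) 0 = 0 := by
      apply Finset.sum_eq_zero
      intro i hi
      rw [Finset.mem_compl] at hi
      apply max_eq_right
      have hne : i ∉ s.erase i0 := fun h => hi (Finset.mem_of_mem_erase h)
      have h3 := hmax (insert i (s.erase i0)) (by
        rw [Finset.card_insert_of_notMem hne, Finset.card_erase_of_mem hi0]; omega)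
      rw [Finset.sum_insert hne, Finset.sum_erase_eq_sub hi0] at h3
      linarith
    rw [h1, h2]
    linarith

theorem majorized_iff {m n : ℕ} (x : Fin m → ℝ) (y : Fin n → ℝ)
    (hy : ∀ i, 0 ≤ y i) : Majorized x y ↔ Maj (ms x) (ms y) := by
  unfold Majorized Maj
  rw [sum_ms, sum_ms]
  constructor
  · rintro ⟨h1, h2⟩
    refine ⟨h2, fun t ht => ?_⟩
    obtain ⟨k, hk⟩ := exists_Phi_le x t
    have := topSum_le_Phi y k ht
    linarith [h1 k]
  · rintro ⟨h1, h2⟩
    refine ⟨fun k => ?_, h1⟩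
    obtain ⟨t, ht, hk⟩ := exists_t y hy k
    have := topSum_le_Phi x k ht
    linarith [h2 t ht]

section eigen

theorem eigenvalues_of_charpoly {m : Type*} [Fintype m] [DecidableEq m] {A : Matrix m m ℂ}
    (hA : A.IsHermitian) {ι : Type*} [Fintype ι] (w : ι → ℝ)
    (h : A.charpoly = ∏ i, (X - C ((w i : ℂ)))) :
    (Finset.univ.val.map hA.eigenvalues : Multiset ℝ) = Finset.univ.val.map w := by
  apply Multiset.map_injective Complex.ofReal_injective
  have h1 := hA.roots_charpoly_eq_eigenvalues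
  rw [h, Polynomial.roots_prod _ _ (by
    simp [Finset.prod_ne_zero_iff, Polynomial.X_sub_C_ne_zero])] at h1
  simp only [Polynomial.roots_X_sub_C, Multiset.bind_singleton] at h1
  rw [Multiset.map_map, Multiset.map_map]
  exact h1.symm

theorem charpoly_kronecker {m n : Type*} [Fintype m] [DecidableEq m] [Fintype n] [DecidableEq n]
    {P : Matrix m m ℂ} {Q : Matrix n n ℂ} (hP : P.IsHermitian) (hQ : Q.IsHermitian) :
    (P ⊗ₖ Q).charpoly =
      ∏ i : m × n, (X - C (((hP.eigenvalues i.1 * hQ.eigenvalues i.2 : ℝ) : ℂ))) := by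
  set U : Matrix m m ℂ := (hP.eigenvectorUnitary : Matrix m m ℂ) with hU
  set V : Matrix n n ℂ := (hQ.eigenvectorUnitary : Matrix n n ℂ) with hV
  have hUU : star U * U = 1 := by
    rw [hU]; exact Unitary.coe_star_mul_self _
  have hVV : star V * V = 1 := by
    rw [hV]; exact Unitary.coe_star_mul_self _
  have e1 : P = U * diagonal (fun i => (hP.eigenvalues i : ℂ)) * star U := by
    conv_lhs => rw [hP.spectral_theorem, Unitary.conjStarAlgAut_apply]
    rfl
  have e2 : Q = V * diagonal (fun i => (hQ.eigenvalues i : ℂ)) * star V := by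
    conv_lhs => rw [hQ.spectral_theorem, Unitary.conjStarAlgAut_apply]
    rfl
  have e3 : P ⊗ₖ Q = (U ⊗ₖ V) * ((diagonal (fun i => (hP.eigenvalues i : ℂ)) ⊗ₖ
      diagonal (fun i => (hQ.eigenvalues i : ℂ))) * (star U ⊗ₖ star V)) := by
    conv_lhs => rw [e1, e2]
    rw [mul_kronecker_mul, mul_kronecker_mul, Matrix.mul_assoc]
  rw [e3, charpoly_mul_comm, Matrix.mul_assoc, ← mul_kronecker_mul, hUU, hVV, one_kronecker_one,
    Matrix.mul_one, diagonal_kronecker_diagonal, charpoly_diagonal]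
  apply Finset.prod_congr rfl
  intro i _
  push_cast
  rfl

end eigen

theorem schmidt_nonneg (ψ : PureState) (i : Fin ψ.d) : 0 ≤ ψ.schmidt i :=
  Matrix.eigenvalues_self_mul_conjTranspose_nonneg ψ.coeff i

theorem schmidt_sum (ψ : PureState) : ∑ i, ψ.schmidt i = 1 := by
  have h1 := (Matrix.isHermitian_mul_conjTranspose_self ψ.coeff).trace_eq_sum_eigenvalues
  have h2 : (ψ.coeff * ψ.coeffᴴ).trace = ((∑ i, ∑ j, ‖ψ.coeff i j‖ ^ 2 : ℝ) : ℂ) := by
    simp only [Matrix.trace, Matrix.diag, Matrix.mul_apply, Matrix.conjTranspose_apply]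
    push_cast
    apply Finset.sum_congr rfl
    intro i _
    apply Finset.sum_congr rfl
    intro j _
    exact Complex.mul_conj' _
  rw [h2, ψ.norm_sq] at h1
  have h3 : ((∑ i, ψ.schmidt i : ℝ) : ℂ) = ((1 : ℝ) : ℂ) := by
    rw [h1]
    push_cast
    rfl
  exact_mod_cast h3

/-- multiset of Schmidt coefficients -/
noncomputable def msS (ψ : PureState) : Multiset ℝ := ms ψ.schmidt

theorem tp_univ {m n : ℕ} (v : Fin m → ℝ) (w : Fin n → ℝ) :
    (Finset.univ.val.map (fun i : Fin m × Fin n => v i.1 * w i.2) : Multiset ℝ)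
      = tp (ms v) (ms w) := by
  unfold tp ms
  rw [Multiset.bind_map]
  simp only [Multiset.map_map, Function.comp_def]
  have : (Finset.univ : Finset (Fin m × Fin n)).val
      = (Finset.univ : Finset (Fin m)).val ×ˢ (Finset.univ : Finset (Fin n)).val := rfl
  rw [this]
  show Multiset.map _ (Multiset.product _ _) = _
  unfold Multiset.product
  rw [Multiset.map_bind]
  simp only [Multiset.map_map, Function.comp_def]

theorem eigen_tensor {d e : ℕ} (A : Matrix (Fin d) (Fin d) ℂ) (B : Matrix (Fin e) (Fin e) ℂ) :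
    ms (Matrix.isHermitian_mul_conjTranspose_self
      (Matrix.reindex finProdFinEquiv finProdFinEquiv (A ⊗ₖ B))).eigenvalues
      = tp (ms (Matrix.isHermitian_mul_conjTranspose_self A).eigenvalues)
        (ms (Matrix.isHermitian_mul_conjTranspose_self B).eigenvalues) := by
  rw [← tp_univ]
  unfold ms
  apply eigenvalues_of_charpoly
  have h1 : (Matrix.reindex finProdFinEquiv finProdFinEquiv (A ⊗ₖ B)) *
      (Matrix.reindex finProdFinEquiv finProdFinEquiv (A ⊗ₖ B))ᴴ
      = Matrix.reindex finProdFinEquiv finProdFinEquiv ((A * Aᴴ) ⊗ₖ (B * Bᴴ)) := by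
    rw [conjTranspose_reindex, mul_kronecker_mul, conjTranspose_kronecker]
    simp only [reindex_apply]
    rw [submatrix_mul_equiv]
  rw [h1, charpoly_reindex]
  exact charpoly_kronecker _ _

theorem msS_tensor (ψ η : PureState) : msS (ψ.tensor η) = tp (msS ψ) (msS η) :=
  eigen_tensor ψ.coeff η.coeff

theorem converts_iff (ψ φ η η' : PureState) :
    Converts (ψ.tensor η) (φ.tensor η') ↔ Maj (tp (msS ψ) (msS η)) (tp (msS φ) (msS η')) := by
  unfold Converts
  rw [majorized_iff _ _ (schmidt_nonneg _)]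
  rw [← msS_tensor, ← msS_tensor]
  rfl

/-- positive Schmidt coefficients -/
noncomputable def pos (ψ : PureState) : Multiset ℝ := (msS ψ).filter (fun a => 0 < a)

theorem msS_nonneg (ψ : PureState) : ∀ a ∈ msS ψ, 0 ≤ a := by
  intro a ha
  obtain ⟨i, rfl⟩ := mem_ms.mp ha
  exact schmidt_nonneg ψ i

theorem pos_PV (ψ : PureState) : PV (pos ψ) := by
  refine ⟨fun a ha => (Multiset.mem_filter.mp ha).2, ?_⟩
  unfold pos
  rw [sum_filter_pos _ (msS_nonneg ψ)]
  unfold msS
  rw [sum_ms, schmidt_sum]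

theorem Phi_tp_replicate_left (x y : Multiset ℝ) {t : ℝ} (ht : 0 ≤ t) (k : ℕ) :
    Phi (tp (x + Multiset.replicate k 0) y) t = Phi (tp x y) t := by
  rw [tp_add_left, Phi_add, Phi_eq_zero (tp (Multiset.replicate k 0) y) t, add_zero]
  intro a ha
  obtain ⟨b, hb, c, hc, rfl⟩ := mem_tp ha
  rw [Multiset.eq_of_mem_replicate hb, zero_mul]
  exact ht

theorem Phi_pos (ψ η : PureState) {t : ℝ} (ht : 0 ≤ t) :
    Phi (tp (msS ψ) (msS η)) t = Phi (tp (pos ψ) (pos η)) t := by
  conv_lhs => rw [split_zero (msS ψ) (msS_nonneg ψ), split_zero (msS η) (msS_nonneg η)]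
  rw [Phi_tp_replicate_left _ _ ht, Phi_tp_replicate_zero _ _ ht]
  rfl

theorem sum_msS (ψ : PureState) : (msS ψ).sum = 1 := by
  unfold msS
  rw [sum_ms, schmidt_sum]

theorem converts_iff_pos (ψ φ η η' : PureState) :
    Converts (ψ.tensor η) (φ.tensor η') ↔ Maj (tp (pos ψ) (pos η)) (tp (pos φ) (pos η')) := by
  rw [converts_iff]
  unfold Maj
  constructor
  · rintro ⟨-, h2⟩
    refine ⟨by rw [sum_tp, sum_tp, (pos_PV ψ).2, (pos_PV φ).2, (pos_PV η).2, (pos_PV η').2], ?_⟩
    intro t ht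
    have := h2 t ht
    rwa [Phi_pos _ _ ht, Phi_pos _ _ ht] at this
  · rintro ⟨-, h2⟩
    refine ⟨by rw [sum_tp, sum_tp, sum_msS, sum_msS, sum_msS, sum_msS], ?_⟩
    intro t ht
    have := h2 t ht
    rwa [Phi_pos _ _ ht, Phi_pos _ _ ht]

theorem Phi_scale (x : Multiset ℝ) {c : ℝ} (hc : 0 < c) (t : ℝ) :
    Phi (x.map (fun a => c * a)) t = c * Phi x (t / c) := by
  unfold Phi
  rw [Multiset.map_map, ← Multiset.sum_map_mul_left]
  congr 1
  apply Multiset.map_congr rfl
  intro a _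
  simp only [Function.comp]
  rw [mul_max_of_nonneg _ _ hc.le, mul_zero]
  congr 1
  field_simp

theorem tp_scale (x y : Multiset ℝ) (c : ℝ) :
    tp x (y.map (fun a => c * a)) = (tp x y).map (fun a => c * a) := by
  unfold tp
  rw [Multiset.map_bind]
  congr 1
  funext a
  rw [Multiset.map_map, Multiset.map_map]
  apply Multiset.map_congr rfl
  intro b _
  simp only [Function.comp]
  ring

theorem Maj_scale {x y : Multiset ℝ} (h : Maj x y) {c : ℝ} (hc : 0 < c) :
    Maj (x.map (fun a => c * a)) (y.map (fun a => c * a)) := by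
  refine ⟨?_, ?_⟩
  · rw [Multiset.sum_map_mul_left, Multiset.sum_map_mul_left, Multiset.map_id', Multiset.map_id',
      h.1]
  · intro t ht
    rw [Phi_scale _ hc, Phi_scale _ hc]
    exact mul_le_mul_of_nonneg_left (h.2 _ (div_nonneg ht hc.le)) hc.le

/-- every probability vector is a Schmidt vector -/
theorem exists_state {n : ℕ} (v : Fin n → ℝ) (hv : ∀ i, 0 ≤ v i) (hs : ∑ i, v i = 1) :
    ∃ η : PureState, msS η = ms v := by
  classical
  refine ⟨⟨n, Matrix.diagonal (fun i => ((Real.sqrt (v i) : ℝ) : ℂ)), ?_⟩, ?_⟩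
  · rw [← hs]
    apply Finset.sum_congr rfl
    intro i _
    rw [Finset.sum_eq_single i]
    · rw [Matrix.diagonal_apply_eq, Complex.norm_real, Real.norm_eq_abs, sq_abs,
        Real.sq_sqrt (hv i)]
    · intro j _ hj
      rw [Matrix.diagonal_apply_ne' _ hj]
      simp
    · intro h
      exact absurd (Finset.mem_univ i) h
  · unfold msS ms PureState.schmidt
    apply eigenvalues_of_charpoly
    rw [Matrix.diagonal_conjTranspose, Matrix.diagonal_mul_diagonal, charpoly_diagonal]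
    apply Finset.prod_congr rfl
    intro i _
    congr 2
    simp only [Pi.star_apply, RCLike.star_def, Complex.conj_ofReal]
    rw [← Complex.ofReal_mul, Real.mul_self_sqrt (hv i)]

theorem exists_state_pos {q : Multiset ℝ} (hq : PV q) : ∃ η : PureState, pos η = q := by
  obtain ⟨v, hv⟩ := exists_ms q rfl
  obtain ⟨η, hη⟩ := exists_state v
    (fun i => (hq.1 _ (by rw [← hv]; exact mem_ms.mpr ⟨i, rfl⟩)).le)
    (by rw [← sum_ms, hv, hq.2])
  refine ⟨η, ?_⟩
  unfold pos
  rw [hη, hv, Multiset.filter_eq_self]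
  exact hq.1

theorem flex_subset : CatF ⊆ Cat := by
  rintro ⟨ψ, φ⟩ h
  simp only [CatF, Set.mem_iUnion] at h
  obtain ⟨S, ⟨η₀, hη₀⟩, hS⟩ := h
  -- build the chain
  choose f hf1 hf2 using hS
  let F : S → S := fun η => ⟨f η.1 η.2, hf1 η.1 η.2⟩
  let E : ℕ → S := fun n => F^[n] ⟨η₀, hη₀⟩
  have hE : ∀ n, E (n + 1) = F (E n) := fun n => Function.iterate_succ_apply' F n _
  have hchain : Chain (pos ψ) (pos φ) (fun n => pos (E n).1) := by
    refine ⟨fun n => pos_PV _, fun n => ?_⟩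
    have h1 := hf2 (E n).1 (E n).2
    have h2 : (E (n + 1)).1 = f (E n).1 (E n).2 := by rw [hE]
    rw [converts_iff_pos] at h1
    show Maj (tp (pos ψ) (pos (E n).1)) (tp (pos φ) (pos (E (n + 1)).1))
    rw [h2]
    exact h1
  obtain ⟨q, hq0, hqp, hq⟩ := assembly (pos_PV ψ) (pos_PV φ) hchain
  have hsum : 0 < q.sum := by
    have := m_pos hqp hq0 1
    rwa [m_one] at this
  have hc : 0 < q.sum⁻¹ := inv_pos.mpr hsum
  have hPV : PV (q.map (fun a => q.sum⁻¹ * a)) := by
    refine ⟨?_, ?_⟩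
    · intro a ha
      obtain ⟨b, hb, rfl⟩ := Multiset.mem_map.mp ha
      exact mul_pos hc (hqp b hb)
    · rw [Multiset.sum_map_mul_left, Multiset.map_id', inv_mul_cancel₀ hsum.ne']
  obtain ⟨η, hη⟩ := exists_state_pos hPV
  refine ⟨η, ?_⟩
  rw [converts_iff_pos]
  show Maj (tp (pos ψ) (pos η)) (tp (pos φ) (pos η))
  rw [hη, tp_scale, tp_scale]
  exact Maj_scale hq hc

theorem subset_flex : Cat ⊆ CatF := by
  rintro P ⟨η, h⟩
  simp only [CatF, Set.mem_iUnion]
  refine ⟨{η}, ⟨η, rfl⟩, ?_⟩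
  intro η' hη'
  rw [Set.mem_singleton_iff] at hη'
  subst hη'
  exact ⟨η', rfl, h⟩

/-- Infinite flexible catalysis is no stronger than standard catalysis:
`Cat_LOCC^(f) = Cat_LOCC`. -/
theorem result : CatF = Cat := Set.Subset.antisymm flex_subset subset_flex

end Pool.Agent.Results.MP_261b1b_mp.FlexibleCatalysis
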